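import Mathlib

/-!
# The shifted generating function of the continuous dual q-Hahn polynomials

The proposed identity `G_n(t) = AW_n(x|a,b,c,t,q) / (at,bt,ct;q)_n * G_0(t)` fails for `n = 1`
whenever `a b c ≠ 0`: the coefficients of `t` of the two sides of the identity multiplied by
`(at,bt,ct;q)_1` differ by `a b c (2 + q) ψ_1(x)`.
-/

set_option autoImplicit false

namespace Pool.Agent.Results.MP_93f727_an.IdentityFails

open Finset

/-- The q-Pochhammer symbol `(α;q)_n = ∏_{j<n} (1 - α q^j)`, in any commutative ring. -/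
def qp {A : Type} [CommRing A] (α q : A) (n : ℕ) : A := ∏ j ∈ range n, (1 - α * q ^ j)

/-- The q-binomial coefficient `(q;q)_n / ((q;q)_i (q;q)_{n-i})`. -/
noncomputable def qbinom (q : ℝ) (n i : ℕ) : ℝ := qp q q n / (qp q q i * qp q q (n - i))

/-- The continuous dual q-Hahn polynomials `ψ_n(x|a,b,c,q)`, in any commutative ring:
`ψ_0 = 1`, `ψ_1 = 2x - d_0` with `d_0 = a + b + c - abc`, and
`ψ_{n+2} = (2x - d_{n+1}) ψ_{n+1} - (1 - q^{n+1}) f_n ψ_n`. -/
def psi {A : Type} [CommRing A] (x a b c q : A) : ℕ → A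
  | 0 => 1
  | 1 => 2 * x - (a + b + c - a * b * c)
  | (n + 2) =>
    (2 * x - ((a + b + c) * q ^ (n + 1) + a * b * c * q ^ n * (1 - q ^ (n + 1) - q ^ (n + 2)))) *
        psi x a b c q (n + 1) -
      (1 - q ^ (n + 1)) * ((1 - a * b * q ^ n) * (1 - a * c * q ^ n) * (1 - b * c * q ^ n)) *
        psi x a b c q n

/-- The formal power series `G_n(t) = ∑_i t^i / (q;q)_i ψ_{i+n}(x|a,b,c,q)` for a real `x`. -/
noncomputable def G (x a b c q : ℝ) (n : ℕ) : PowerSeries ℝ :=
  PowerSeries.mk fun i => psi x a b c q (i + n) / qp q q i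

/-- A real number as a constant power series. -/
noncomputable abbrev K (r : ℝ) : PowerSeries ℝ := PowerSeries.C r

/-- The formal variable `t`. -/
noncomputable abbrev t : PowerSeries ℝ := PowerSeries.X

/-- The Askey-Wilson polynomial `AW_n(x|a,b,c,t,q)` with fourth parameter `d = t`, as a formal power
series in `t`, for `n ≥ 1`:
`∑_i binom(n,i)_q (-a)^{n-i} q^{binom(n-i,2)} (bcq^i,btq^i,ctq^i;q)_{n-i} / (abctq^{n+i-1};q)_{n-i}
  ψ_i(x|b,c,t,q)`. -/
noncomputable def AW (x a b c q : ℝ) (n : ℕ) : PowerSeries ℝ :=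
  ∑ i ∈ range (n + 1), K (qbinom q n i) * (-K a) ^ (n - i) * K q ^ ((n - i).choose 2) *
    (qp (K b * K c * K q ^ i) (K q) (n - i) * qp (K b * t * K q ^ i) (K q) (n - i) *
      qp (K c * t * K q ^ i) (K q) (n - i)) *
    (qp (K a * K b * K c * t * K q ^ (n + i - 1)) (K q) (n - i))⁻¹ *
    psi (K x) (K b) (K c) t (K q) i

/-- The identity in question for `n` and a real number `x`. -/
def Identity (x a b c q : ℝ) (n : ℕ) : Prop :=
  G x a b c q n =
    AW x a b c q n * (qp (K a * t) (K q) n * qp (K b * t) (K q) n * qp (K c * t) (K q) n)⁻¹ *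
      G x a b c q 0

lemma c1_mul (f g : PowerSeries ℝ) : PowerSeries.coeff 1 (f * g) =
    PowerSeries.constantCoeff f * PowerSeries.coeff 1 g +
      PowerSeries.coeff 1 f * PowerSeries.constantCoeff g := by
  rw [PowerSeries.coeff_mul, Nat.sum_antidiagonal_eq_sum_range_succ_mk, sum_range_succ,
    sum_range_one]
  simp

lemma c1_C (r : ℝ) : PowerSeries.coeff 1 (K r) = 0 := by
  rw [PowerSeries.coeff_C]; simp

lemma c1_one : PowerSeries.coeff 1 (1 : PowerSeries ℝ) = 0 := by
  rw [PowerSeries.coeff_one]; simp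

lemma c1_two : PowerSeries.coeff 1 (2 : PowerSeries ℝ) = 0 := by
  have : (2 : PowerSeries ℝ) = K 2 := (map_ofNat PowerSeries.C 2).symm
  rw [this, c1_C]

lemma c0_two : PowerSeries.constantCoeff (2 : PowerSeries ℝ) = 2 := by
  have : (2 : PowerSeries ℝ) = K 2 := (map_ofNat PowerSeries.C 2).symm
  rw [this, PowerSeries.constantCoeff_C]

lemma c1_t : PowerSeries.coeff 1 t = 1 := PowerSeries.coeff_one_X

/-- **Theorem.** For all `q ∈ (-1, 1)` and all real `a, b, c` with `abc ≠ 0` the identity fails for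
`n = 1`, at every real point `x` which is not the zero `(a + b + c - abc) / 2` of `ψ_1`. -/
theorem result (q a b c : ℝ) (hq : -1 < q) (hq' : q < 1) (habc : a * b * c ≠ 0) (x : ℝ)
    (hx : x ≠ (a + b + c - a * b * c) / 2) : ¬ Identity x a b c q 1 := by
  intro h
  unfold Identity at h
  have h1q : (1 - q) ≠ 0 := by linarith
  have hqb0 : qbinom q 1 0 = 1 := by
    unfold qbinom qp
    simp only [prod_range_one, prod_range_zero, pow_zero, mul_one, one_mul, Nat.sub_zero]
    exact div_self h1q
  have hqb1 : qbinom q 1 1 = 1 := by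
    unfold qbinom qp
    simp only [prod_range_one, prod_range_zero, pow_zero, mul_one, Nat.sub_self]
    exact div_self h1q
  set U : PowerSeries ℝ := 1 - K (a * b * c) * t with hU
  set P : PowerSeries ℝ := (1 - K a * t) * (1 - K b * t) * (1 - K c * t) with hP
  have hU0 : PowerSeries.constantCoeff U ≠ 0 := by simp [hU]
  have hP0 : PowerSeries.constantCoeff P ≠ 0 := by simp [hP]
  have hUU : U * U⁻¹ = 1 := PowerSeries.mul_inv_cancel _ hU0
  have hPP : P⁻¹ * P = 1 := by rw [mul_comm]; exact PowerSeries.mul_inv_cancel _ hP0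
  have hAW : AW x a b c q 1 =
      -K a * ((1 - K b * K c) * (1 - K b * t) * (1 - K c * t)) * U⁻¹ +
        (2 * K x - (K b + K c + t - K b * K c * t)) := by
    unfold AW
    rw [sum_range_succ, sum_range_one, hqb0, hqb1]
    have h1 : (1 : PowerSeries ℝ)⁻¹ = 1 := by
      have := PowerSeries.mul_inv_cancel (1 : PowerSeries ℝ) (by simp)
      rwa [one_mul] at this
    have : K a * K b * K c * t = K (a * b * c) * t := by
      simp only [K, map_mul]
    simp only [qp, psi, Nat.sub_zero, Nat.sub_self, prod_range_one, prod_range_zero, pow_zero,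
      pow_one, mul_one, map_one, one_mul, Nat.choose_succ_self, Nat.choose_zero_succ,
      h1, Nat.add_zero, this, hU]
  have hden : (qp (K a * t) (K q) 1 * qp (K b * t) (K q) 1 * qp (K c * t) (K q) 1) = P := by
    simp only [qp, prod_range_one, pow_zero, mul_one, hP]
  rw [hden] at h
  have hmain : U * P * G x a b c q 1 =
      (-K a * ((1 - K b * K c) * (1 - K b * t) * (1 - K c * t)) +
        U * (2 * K x - (K b + K c + t - K b * K c * t))) * G x a b c q 0 := by
    rw [h, hAW]
    calc U * P * ((-K a * ((1 - K b * K c) * (1 - K b * t) * (1 - K c * t)) * U⁻¹ +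
          (2 * K x - (K b + K c + t - K b * K c * t))) * P⁻¹ * G x a b c q 0)
        = (P⁻¹ * P) * ((-K a * ((1 - K b * K c) * (1 - K b * t) * (1 - K c * t)) * (U * U⁻¹) +
          U * (2 * K x - (K b + K c + t - K b * K c * t))) * G x a b c q 0) := by ring
      _ = _ := by rw [hPP, hUU, one_mul, mul_one]
  have h1 := congrArg (PowerSeries.coeff 1) hmain
  have hG1 : PowerSeries.coeff 1 (G x a b c q 1) = psi x a b c q 2 / (1 - q) := by
    unfold G
    rw [PowerSeries.coeff_mk]
    simp [qp]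
  have hG0 : PowerSeries.coeff 1 (G x a b c q 0) = psi x a b c q 1 / (1 - q) := by
    unfold G
    rw [PowerSeries.coeff_mk]
    simp [qp]
  have hc1 : PowerSeries.constantCoeff (G x a b c q 1) = psi x a b c q 1 := by
    rw [← PowerSeries.coeff_zero_eq_constantCoeff_apply]
    unfold G
    rw [PowerSeries.coeff_mk]
    simp [qp]
  have hc0 : PowerSeries.constantCoeff (G x a b c q 0) = 1 := by
    rw [← PowerSeries.coeff_zero_eq_constantCoeff_apply]
    unfold G
    rw [PowerSeries.coeff_mk]
    simp [qp, psi]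
  simp only [hU, hP, c1_mul, map_add, map_sub, map_mul, map_neg, map_one, c1_C, c1_one, c1_t,
    c1_two, c0_two, PowerSeries.constantCoeff_C, PowerSeries.constantCoeff_X, hG1, hG0, hc1,
    hc0] at h1
  have e1 : psi x a b c q 1 = 2 * x - (a + b + c - a * b * c) := rfl
  have e2 : psi x a b c q 2 = (2 * x - ((a + b + c) * q ^ (0 + 1) +
      a * b * c * q ^ 0 * (1 - q ^ (0 + 1) - q ^ (0 + 2)))) * psi x a b c q (0 + 1) -
      (1 - q ^ (0 + 1)) * ((1 - a * b * q ^ 0) * (1 - a * c * q ^ 0) * (1 - b * c * q ^ 0)) *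
        psi x a b c q 0 := rfl
  have e0 : psi x a b c q 0 = 1 := rfl
  rw [e2, zero_add, e0, e1] at h1
  have h2 : a * b * c * (2 + q) * (2 * x - (a + b + c - a * b * c)) = 0 := by
    have hr : (1 - q) * (1 - q)⁻¹ = 1 := mul_inv_cancel₀ h1q
    simp only [div_eq_mul_inv] at h1
    linear_combination (-1) * h1 + (((a + b + c) - a * b * c * (2 + q)) *
      (2 * x - (a + b + c - a * b * c)) - (1 - a * b) * (1 - a * c) * (1 - b * c)) * hr
  have h3 : (2 + q) ≠ 0 := by linarith
  have h4 : 2 * x - (a + b + c - a * b * c) ≠ 0 := by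
    intro h5; apply hx; linarith
  exact mul_ne_zero (mul_ne_zero habc h3) h4 h2

end Pool.Agent.Results.MP_93f727_an.IdentityFails
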